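import Pool.Agent.Lib.RHO6.G

open Finset Filter Topology

namespace Pool.Agent.Results.MP_5a799b_co.LimitCriterion

open Pool.Agent.Results.MP_5a799b_co.LogBounds (HasTriple f F)

/-- The limit of `log n / F n`: a criterion for its existence, and its value along the orders
without large prime exponents, hence along almost all orders; see the claim file. -/
theorem result :
    (∀ (G : Type) [AddCommGroup G] [Finite G] (H : AddSubgroup G),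
      f H + f (G ⧸ H) ≤ f G + 1) ∧
    ∃ lam Lam : ℝ,
      IsLUB {x : ℝ | ∃ n : ℕ, 2 ≤ n ∧ x = ((f (ZMod n) : ℝ) - 1) / Real.log n} lam ∧
      IsLUB {x : ℝ | ∃ n : ℕ, 2 ≤ n ∧ x = ((F n : ℝ) - 1) / Real.log n} Lam ∧
      1 / Real.log (3 / 2) ≤ lam ∧ lam ≤ Lam ∧ Lam ≤ 2 / Real.log (3 / 2) ∧
      Tendsto (fun n : ℕ => (f (ZMod n) : ℝ) / Real.log n) atTop (𝓝 lam) ∧
      (∀ ε : ℝ, 0 < ε →
        (∀ᶠ n : ℕ in atTop,
          lam - ε ≤ (F n : ℝ) / Real.log n ∧ (F n : ℝ) / Real.log n ≤ Lam + ε) ∧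
        (∃ᶠ n : ℕ in atTop, (F n : ℝ) / Real.log n ≤ lam + ε) ∧
        (∃ᶠ n : ℕ in atTop, Lam - ε ≤ (F n : ℝ) / Real.log n)) ∧
      ((∃ ρ : ℝ, Tendsto (fun n : ℕ => Real.log n / (F n : ℝ)) atTop (𝓝 ρ)) ↔ lam = Lam) ∧
      (lam = Lam →
        Tendsto (fun n : ℕ => Real.log n / (F n : ℝ)) atTop (𝓝 (1 / lam))) ∧
      (∀ (r : ℕ) (m : Fin r → ℕ) (S : Finset (∀ i, ZMod (m i))),
        (∀ i, 1 ≤ m i) → ¬ HasTriple S →
        (S.card : ℝ) ≤ lam * (Real.log (∏ i, (m i : ℝ)) + r * Real.log S.card)) ∧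
      (∀ ε : ℝ, 0 < ε → ∃ δ : ℝ, 0 < δ ∧ ∃ N : ℕ,
        (∀ (r : ℕ) (m : Fin r → ℕ), (∀ i, 1 ≤ m i) → N ≤ ∏ i, m i →
          (r : ℝ) * Real.log (Real.log (∏ i, (m i : ℝ))) ≤ δ * Real.log (∏ i, (m i : ℝ)) →
          |(f (∀ i, ZMod (m i)) : ℝ) / Real.log (∏ i, (m i : ℝ)) - lam| ≤ ε) ∧
        (∀ n a : ℕ, N ≤ n → (∀ p b : ℕ, p.Prime → p ^ b ∣ n → b ≤ a) →
          (a : ℝ) * Real.log (Real.log n) ≤ δ * Real.log n →
          |(F n : ℝ) / Real.log n - lam| ≤ ε)) ∧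
      (∀ a : ℕ, Tendsto (fun n : ℕ => Real.log n / (F n : ℝ))
        (atTop ⊓ 𝓟 {n : ℕ | ∀ p b : ℕ, p.Prime → p ^ b ∣ n → b ≤ a}) (𝓝 (1 / lam))) ∧
      (∀ ε : ℝ, 0 < ε → Tendsto (fun x : ℕ =>
        ({n : ℕ | n ≤ x ∧ ε < |(F n : ℝ) / Real.log n - lam|}.ncard : ℝ) / x) atTop (𝓝 0)) := by
  refine ⟨fun G _ _ H => Lib.RHO6.f_extension H, sSup Lib.RHO6.Xs, sSup Lib.RHO6.Ys,
    isLUB_csSup Lib.RHO6.Xs_ne Lib.RHO6.Xs_bdd, isLUB_csSup Lib.RHO6.Ys_ne Lib.RHO6.Ys_bdd,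
    Lib.RHO6.lam_ge, Lib.RHO6.lam_le_Lam, Lib.RHO6.Lam_le,
    Lib.RHO6.tendsto_cyclic,
    fun ε hε => ⟨Lib.RHO6.ev_bounds ε hε, Lib.RHO6.freq_low ε hε, Lib.RHO6.freq_high ε hε⟩,
    ⟨fun ⟨ρ, h⟩ => Lib.RHO6.eq_of_tendsto ρ h, fun h => ⟨_, Lib.RHO6.tendsto_of_eq h⟩⟩,
    Lib.RHO6.tendsto_of_eq, fun r m S hm hS => Lib.RHO6.rank_bound m hm S hS, ?_,
    Lib.RHO6.tendsto_power_free_inv, Lib.RHO6.density_one⟩
  intro ε hε
  obtain ⟨δ1, h1, N1, H1⟩ := Lib.RHO6.small_rank ε hε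
  obtain ⟨δ2, h2, N2, H2⟩ := Lib.RHO6.small_exponents ε hε
  refine ⟨min δ1 δ2, lt_min h1 h2, max N1 N2, ?_, ?_⟩
  · intro r m hm hN hr
    refine H1 r m hm (le_trans (le_max_left _ _) hN) (hr.trans ?_)
    apply mul_le_mul_of_nonneg_right (min_le_left _ _)
    rw [← Nat.cast_prod]
    exact Real.log_natCast_nonneg _
  · intro n a hN ha hr
    refine H2 n a (le_trans (le_max_right _ _) hN) ha (hr.trans ?_)
    exact mul_le_mul_of_nonneg_right (min_le_right _ _) (Real.log_natCast_nonneg _)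

end Pool.Agent.Results.MP_5a799b_co.LimitCriterion
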